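import Mathlib

/-! Statements for `S(x) = ∑_{n ≤ x} (-2)^Ω(n)` (project H295-W2, MP_88bd62_nt / MP_5db4ad_nt). -/

set_option autoImplicit false

open Finset ArithmeticFunction

namespace Pool.Agent.H295R3.W

/-- `(-2)^Ω(n)` -/
noncomputable def f (n : ℕ) : ℝ := (-2 : ℝ) ^ (cardFactors n)

/-- `S(x) = ∑_{n ≤ x} (-2)^Ω(n)` -/
noncomputable def S (x : ℝ) : ℝ := ∑ n ∈ Icc 1 ⌊x⌋₊, f n

/-- the same sum over odd `n` -/
noncomputable def T (x : ℝ) : ℝ := ∑ n ∈ (Icc 1 ⌊x⌋₊).filter (fun n => n % 2 = 1), f n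

/-- `f` restricted to odd numbers, as an arithmetic function -/
noncomputable def fo : ArithmeticFunction ℝ :=
  ⟨fun n => if n % 2 = 1 then f n else 0, by simp⟩

/-- `μ * μ` -/
noncomputable def mu2 : ArithmeticFunction ℝ :=
  ((moebius : ArithmeticFunction ℤ) : ArithmeticFunction ℝ) *
    ((moebius : ArithmeticFunction ℤ) : ArithmeticFunction ℝ)

/-- `g = 1 * 1 * fo`, so `fo = mu2 * g` -/
noncomputable def g : ArithmeticFunction ℝ :=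
  ((zeta : ArithmeticFunction ℕ) : ArithmeticFunction ℝ) *
    ((zeta : ArithmeticFunction ℕ) : ArithmeticFunction ℝ) * fo

/-- summatory function of `μ * μ`: every log power is saved -/
def TaskM : Prop := ∀ V : ℕ, ∃ C : ℝ, 0 < C ∧ ∀ y : ℝ, 1 ≤ y →
  |∑ n ∈ Icc 1 ⌊y⌋₊, mu2 n| ≤ C * y / (Real.log (y + 1)) ^ V

/-- `g` is small -/
def TaskG : Prop := Summable fun n : ℕ => |g n| / (n : ℝ) ^ (3 / 4 : ℝ)

/-- odd sums -/
def TaskT : Prop := TaskM → TaskG → ∀ V : ℕ, ∃ C : ℝ, 0 < C ∧ ∀ u : ℝ, 1 ≤ u →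
  |T u| ≤ C * u / (Real.log (u + 1)) ^ V

/-- from odd sums to all sums -/
def TaskS : Prop := ∀ (K : ℕ) (x : ℝ), 0 ≤ x → x < 2 ^ (K + 1) →
  S x = ∑ k ∈ range (K + 1), (-2 : ℝ) ^ k * T (x / 2 ^ k)

/-- the points `s_k = 1 + (2k+1) π i / log 2` -/
noncomputable def om (k : ℕ) : ℝ := (2 * k + 1) * Real.pi / Real.log 2

/-- the Dirichlet series `∑ f(n) n^{-s}`, `Re s > 1` -/
noncomputable def Dir (s : ℂ) : ℂ := ∑' n : ℕ, (f n : ℂ) * ((n : ℂ) ^ (-s))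

end Pool.Agent.H295R3.W
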