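import Pool.Agent.H295R3.W.Stmts
import Pool.Agent.H612K.W.TaskS
import Pool.Agent.H744R3.W.TaskT

/-! Assembly of part A: `S(2^k t)/(2^k t) = (-1)^k G(t) + O(k^{-V})`, `limsup |S(x)|/x = sup |G|`. -/

set_option autoImplicit false

open Finset ArithmeticFunction Filter Topology

namespace Pool.Agent.H295R3.W

/-- `G(t) = ∑_i (-1)^i T(2^i t)/(2^i t)` -/
noncomputable def G (t : ℝ) : ℝ := ∑' i : ℕ, (-1 : ℝ) ^ i * (T (2 ^ i * t) / (2 ^ i * t))

theorem term_bound (hT : ∀ V : ℕ, ∃ C : ℝ, 0 < C ∧ ∀ u : ℝ, 1 ≤ u →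
    |T u| ≤ C * u / (Real.log (u + 1)) ^ V) (V : ℕ) :
    ∃ C : ℝ, 0 < C ∧ ∀ t : ℝ, 1 ≤ t → ∀ i : ℕ, |T (2 ^ i * t) / (2 ^ i * t)| ≤ C / ((i : ℝ) + 1) ^ V := by
  obtain ⟨C, hC, h⟩ := hT V
  refine ⟨C / (Real.log 2 / 2) ^ V, ?_, fun t ht i => ?_⟩
  · have := Real.log_pos (by norm_num : (1 : ℝ) < 2)
    positivity
  have hl2 := Real.log_pos (by norm_num : (1 : ℝ) < 2)
  have h2i : (1 : ℝ) ≤ 2 ^ i := one_le_pow₀ (by norm_num)
  have hu : 1 ≤ 2 ^ i * t := by nlinarith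
  have hu0 : 0 < 2 ^ i * t := by linarith
  have h1 := h _ hu
  have hlog : Real.log 2 / 2 * ((i : ℝ) + 1) ≤ Real.log (2 ^ i * t + 1) := by
    rcases Nat.eq_zero_or_pos i with h0 | h0
    · subst h0
      have : Real.log 2 ≤ Real.log (2 ^ 0 * t + 1) := Real.log_le_log (by norm_num) (by simp; linarith)
      simp only [Nat.cast_zero, zero_add, mul_one]
      have h5 : Real.log 2 / 2 ≤ Real.log 2 := by linarith
      exact h5.trans this
    · have h3 : (i : ℝ) * Real.log 2 ≤ Real.log (2 ^ i * t + 1) := by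
        rw [← Real.log_pow]
        exact Real.log_le_log (by positivity) (by nlinarith)
      have h4 : (1 : ℝ) ≤ i := by exact_mod_cast h0
      nlinarith
  have hpos : 0 < Real.log 2 / 2 * ((i : ℝ) + 1) := by positivity
  rw [abs_div, abs_of_pos hu0, div_le_iff₀ hu0]
  refine h1.trans ?_
  rw [div_div, ← mul_pow, div_mul_eq_mul_div]
  gcongr

theorem summable_terms {V : ℕ} (hV : 2 ≤ V) (C : ℝ) :
    Summable fun i : ℕ => C / ((i : ℝ) + 1) ^ V := by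
  have h := (Real.summable_one_div_nat_pow (p := V)).2 (by omega)
  have h2 := (summable_nat_add_iff 1).2 h
  refine (h2.mul_left C).congr fun i => ?_
  push_cast
  ring

theorem tail_sum (V : ℕ) (hV : 1 ≤ V) (K : ℕ) (hK : 1 ≤ K) :
    ∑' i : ℕ, 1 / (((i + K : ℕ) : ℝ) + 1) ^ (V + 1) ≤ 1 / (K : ℝ) ^ V := by
  have hs : Summable fun i : ℕ => 1 / (((i + K : ℕ) : ℝ) + 1) ^ (V + 1) := by
    have := summable_terms (V := V + 1) (by omega) 1
    exact (summable_nat_add_iff K).2 this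
  refine Summable.tsum_le_of_sum_range_le hs fun n => ?_
  have key : ∀ n : ℕ, ∑ i ∈ range n, 1 / (((i + K : ℕ) : ℝ) + 1) ^ (V + 1) ≤
      1 / (K : ℝ) ^ V - 1 / ((K : ℝ) + n) ^ V := by
    intro n
    have hK0 : (0 : ℝ) < K := by exact_mod_cast hK
    induction n with
    | zero => simp
    | succ n ih =>
      rw [sum_range_succ]
      have hx : (0 : ℝ) < (K : ℝ) + n := by positivity
      set x : ℝ := (K : ℝ) + n with hxd
      have e : (((n + K : ℕ) : ℝ) + 1) = x + 1 := by push_cast; rw [hxd]; ring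
      have e2 : ((K : ℝ) + ((n + 1 : ℕ) : ℝ)) = x + 1 := by push_cast; rw [hxd]; ring
      rw [e, e2]
      have h1 : 1 / (x + 1) ^ (V + 1) ≤ 1 / x ^ V - 1 / (x + 1) ^ V := by
        have hxV : 0 < x ^ V := by positivity
        have hx1 : 0 < (x + 1) ^ V := by positivity
        have hb : x ^ V * (x + 2) ≤ (x + 1) ^ V * (x + 1) := by
          obtain ⟨W, rfl⟩ : ∃ W, V = W + 1 := ⟨V - 1, by omega⟩
          have : x ^ W ≤ (x + 1) ^ W := pow_le_pow_left₀ hx.le (by linarith) W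
          have h3 : x * (x + 2) ≤ (x + 1) * (x + 1) := by nlinarith
          calc x ^ (W + 1) * (x + 2) = x ^ W * (x * (x + 2)) := by ring
            _ ≤ (x + 1) ^ W * ((x + 1) * (x + 1)) := by
              apply mul_le_mul this h3 (by positivity) (by positivity)
            _ = _ := by ring
        rw [div_sub_div _ _ hxV.ne' hx1.ne', div_le_div_iff₀ (by positivity) (by positivity)]
        rw [pow_succ]
        nlinarith [mul_pos hxV hx1]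
      linarith
  refine (key n).trans ?_
  have : 0 ≤ 1 / ((K : ℝ) + n) ^ V := by positivity
  linarith

theorem S_eq (hS : TaskS) (k : ℕ) (t : ℝ) (ht : 1 ≤ t) (ht2 : t < 2) :
    (-1 : ℝ) ^ k * (S (2 ^ k * t) / (2 ^ k * t)) =
      ∑ i ∈ range (k + 1), (-1 : ℝ) ^ i * (T (2 ^ i * t) / (2 ^ i * t)) := by
  have h0 : (0 : ℝ) < t := by linarith
  rw [hS k (2 ^ k * t) (by positivity) (by rw [pow_succ]; exact mul_lt_mul_of_pos_left ht2 (by positivity))]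
  rw [← Finset.sum_range_reflect (fun i => (-1 : ℝ) ^ i * (T (2 ^ i * t) / (2 ^ i * t)))]
  rw [Finset.sum_div, Finset.mul_sum]
  refine Finset.sum_congr rfl fun j hj => ?_
  rw [mem_range] at hj
  obtain ⟨i, hi⟩ : ∃ i, k = i + j := ⟨k - j, by omega⟩
  have e1 : k + 1 - 1 - j = i := by omega
  rw [e1]
  have e2 : (2 : ℝ) ^ k * t / 2 ^ j = 2 ^ i * t := by
    rw [hi, pow_add]; field_simp
  rw [e2, hi, pow_add, pow_add]
  have e3 : (-2 : ℝ) ^ j = (-1) ^ j * 2 ^ j := by rw [← mul_pow]; norm_num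
  rw [e3]
  have e4 : ((-1 : ℝ) ^ j) * (-1) ^ j = 1 := by rw [← mul_pow]; norm_num
  have : (-1 : ℝ) ^ i * (-1) ^ j * ((-1) ^ j * 2 ^ j * T (2 ^ i * t) / (2 ^ i * 2 ^ j * t)) =
      ((-1 : ℝ) ^ j * (-1) ^ j) * ((-1) ^ i * (T (2 ^ i * t) / (2 ^ i * t))) := by
    field_simp
  rw [this, e4, one_mul]

theorem approx (hT : ∀ V : ℕ, ∃ C : ℝ, 0 < C ∧ ∀ u : ℝ, 1 ≤ u →
    |T u| ≤ C * u / (Real.log (u + 1)) ^ V) (hS : TaskS) (V : ℕ) :
    ∃ C : ℝ, 0 < C ∧ ∀ t : ℝ, 1 ≤ t → t < 2 → ∀ k : ℕ,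
      |(-1 : ℝ) ^ k * (S (2 ^ k * t) / (2 ^ k * t)) - G t| ≤ C / ((k : ℝ) + 1) ^ V := by
  obtain ⟨C, hC, h⟩ := term_bound hT (V + 2)
  refine ⟨C, hC, fun t ht ht2 k => ?_⟩
  have hsum : Summable fun i : ℕ => (-1 : ℝ) ^ i * (T (2 ^ i * t) / (2 ^ i * t)) := by
    refine Summable.of_norm_bounded (summable_terms (V := V + 2) (by omega) C) fun i => ?_
    rw [Real.norm_eq_abs, abs_mul, abs_pow, abs_neg, abs_one, one_pow, one_mul]
    exact h t ht i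
  rw [S_eq hS k t ht ht2, G, ← hsum.sum_add_tsum_nat_add (k + 1), sub_add_cancel_left, abs_neg]
  have hb : ∀ i : ℕ, ‖(-1 : ℝ) ^ (i + (k + 1)) * (T (2 ^ (i + (k + 1)) * t) / (2 ^ (i + (k + 1)) * t))‖ ≤
      C * (1 / (((i + (k + 1) : ℕ) : ℝ) + 1) ^ (V + 2)) := by
    intro i
    rw [Real.norm_eq_abs, abs_mul, abs_pow, abs_neg, abs_one, one_pow, one_mul]
    refine (h t ht (i + (k + 1))).trans (le_of_eq ?_)
    ring
  have hs2 : Summable fun i : ℕ => C * (1 / (((i + (k + 1) : ℕ) : ℝ) + 1) ^ (V + 2)) := by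
    have := summable_terms (V := V + 2) (by omega) 1
    exact ((summable_nat_add_iff (k + 1)).2 this).mul_left C
  rw [← Real.norm_eq_abs]
  refine (tsum_of_norm_bounded hs2.hasSum hb).trans ?_
  rw [tsum_mul_left]
  have h3 := tail_sum (V + 1) (by omega) (k + 1) (by omega)
  calc C * ∑' i : ℕ, 1 / (((i + (k + 1) : ℕ) : ℝ) + 1) ^ (V + 2) ≤ C * (1 / ((k + 1 : ℕ) : ℝ) ^ (V + 1)) := by
        gcongr
    _ ≤ C * (1 / ((k : ℝ) + 1) ^ V) := by
        gcongr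
        push_cast
        exact pow_le_pow_right₀ (by linarith [(Nat.cast_nonneg k : (0 : ℝ) ≤ k)]) (by omega)
    _ = _ := by ring

theorem G_bdd (hT : ∀ V : ℕ, ∃ C : ℝ, 0 < C ∧ ∀ u : ℝ, 1 ≤ u →
    |T u| ≤ C * u / (Real.log (u + 1)) ^ V) : ∃ B : ℝ, ∀ t : ℝ, 1 ≤ t → |G t| ≤ B := by
  obtain ⟨C, hC, h⟩ := term_bound hT 2
  refine ⟨∑' i : ℕ, C / ((i : ℝ) + 1) ^ 2, fun t ht => ?_⟩
  rw [← Real.norm_eq_abs]
  refine tsum_of_norm_bounded (summable_terms le_rfl C).hasSum fun i => ?_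
  rw [Real.norm_eq_abs, abs_mul, abs_pow, abs_neg, abs_one, one_pow, one_mul]
  exact h t ht i

/-- every `x ≥ 1` is `2^k t` with `1 ≤ t < 2` and `k = Nat.log 2 ⌊x⌋₊` -/
theorem exists_decomp (x : ℝ) (hx : 1 ≤ x) : ∃ (k : ℕ) (t : ℝ), 1 ≤ t ∧ t < 2 ∧ x = 2 ^ k * t ∧
    k = Nat.log 2 ⌊x⌋₊ := by
  have hf : 1 ≤ ⌊x⌋₊ := Nat.le_floor (by simpa using hx)
  have h1 : 2 ^ (Nat.log 2 ⌊x⌋₊) ≤ ⌊x⌋₊ := Nat.pow_log_le_self 2 (by omega)
  have h2 : ⌊x⌋₊ < 2 ^ (Nat.log 2 ⌊x⌋₊ + 1) := Nat.lt_pow_succ_log_self (by norm_num) _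
  have h1' : (2 : ℝ) ^ (Nat.log 2 ⌊x⌋₊) ≤ x := by
    have : ((2 ^ (Nat.log 2 ⌊x⌋₊) : ℕ) : ℝ) ≤ ⌊x⌋₊ := by exact_mod_cast h1
    push_cast at this
    exact this.trans (Nat.floor_le (by linarith))
  have h2' : x < (2 : ℝ) ^ (Nat.log 2 ⌊x⌋₊ + 1) := by
    have h3 := (Nat.floor_lt (by linarith : (0 : ℝ) ≤ x)).1 h2
    exact_mod_cast h3
  have hp : (0 : ℝ) < 2 ^ (Nat.log 2 ⌊x⌋₊) := by positivity
  refine ⟨Nat.log 2 ⌊x⌋₊, x / 2 ^ (Nat.log 2 ⌊x⌋₊), ?_, ?_, ?_, rfl⟩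
  · rw [le_div_iff₀ hp]; linarith
  · rw [div_lt_iff₀ hp]; rw [pow_succ] at h2'; linarith
  · field_simp

theorem S_bdd (hT : ∀ V : ℕ, ∃ C : ℝ, 0 < C ∧ ∀ u : ℝ, 1 ≤ u →
    |T u| ≤ C * u / (Real.log (u + 1)) ^ V) (hS : TaskS) :
    ∃ B : ℝ, ∀ x : ℝ, 1 ≤ x → |S x| ≤ B * x := by
  obtain ⟨C, hC, h⟩ := approx hT hS 0
  obtain ⟨B, hB⟩ := G_bdd hT
  refine ⟨B + C, fun x hx => ?_⟩
  obtain ⟨k, t, ht, ht2, rfl, -⟩ := exists_decomp x hx
  have hp : (0 : ℝ) < 2 ^ k * t := by positivity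
  have h1 := h t ht ht2 k
  rw [pow_zero, div_one] at h1
  have h2 := hB t ht
  have h3 : |(-1 : ℝ) ^ k * (S (2 ^ k * t) / (2 ^ k * t))| ≤ B + C := by
    have := abs_sub_abs_le_abs_sub ((-1 : ℝ) ^ k * (S (2 ^ k * t) / (2 ^ k * t))) (G t)
    linarith
  rw [abs_mul, abs_pow, abs_neg, abs_one, one_pow, one_mul, abs_div, abs_of_pos hp,
    div_le_iff₀ hp] at h3
  exact h3

theorem limsup_eq (hT : ∀ V : ℕ, ∃ C : ℝ, 0 < C ∧ ∀ u : ℝ, 1 ≤ u →
    |T u| ≤ C * u / (Real.log (u + 1)) ^ V) (hS : TaskS) :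
    limsup (fun x : ℝ => |S x| / x) atTop = sSup ((fun t => |G t|) '' Set.Ico 1 2) := by
  obtain ⟨B, hB⟩ := G_bdd hT
  obtain ⟨B', hB'⟩ := S_bdd hT hS
  obtain ⟨C, hC, h⟩ := approx hT hS 1
  have hbdd : BddAbove ((fun t => |G t|) '' Set.Ico 1 2) :=
    ⟨B, by rintro _ ⟨t, ht, rfl⟩; exact hB t ht.1⟩
  have hne : ((fun t => |G t|) '' Set.Ico (1 : ℝ) 2).Nonempty := ⟨_, 1, by simp, rfl⟩
  have habs : ∀ (k : ℕ) (t : ℝ), 1 ≤ t → |(-1 : ℝ) ^ k * (S (2 ^ k * t) / (2 ^ k * t))| =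
      |S (2 ^ k * t)| / (2 ^ k * t) := by
    intro k t ht
    have hp : (0 : ℝ) < 2 ^ k * t := by positivity
    rw [abs_mul, abs_pow, abs_neg, abs_one, one_pow, one_mul, abs_div, abs_of_pos hp]
  have hlog : Tendsto (fun x : ℝ => ((Nat.log 2 ⌊x⌋₊ : ℕ) : ℝ)) atTop atTop := by
    have h1 : Tendsto (fun n : ℕ => Nat.log 2 n) atTop atTop := by
      refine tendsto_atTop.2 fun b => ?_
      filter_upwards [eventually_ge_atTop (2 ^ b)] with n hn
      exact (Nat.le_log_iff_pow_le (by norm_num) (by have := Nat.one_le_two_pow (n := b); omega)).2 hn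
    exact tendsto_natCast_atTop_atTop.comp (h1.comp tendsto_nat_floor_atTop)
  have hbu : IsBoundedUnder (· ≤ ·) atTop (fun x : ℝ => |S x| / x) := by
    refine ⟨B', ?_⟩
    rw [eventually_map]
    filter_upwards [eventually_ge_atTop 1] with x hx
    rw [div_le_iff₀ (by linarith)]
    exact hB' x hx
  have hcb : IsCoboundedUnder (· ≤ ·) atTop (fun x : ℝ => |S x| / x) := by
    refine IsBoundedUnder.isCoboundedUnder_le ⟨0, ?_⟩
    rw [eventually_map]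
    filter_upwards [eventually_ge_atTop 1] with x hx
    positivity
  apply le_antisymm
  · refine le_of_forall_pos_le_add fun ε hε => ?_
    refine limsup_le_of_le hcb ?_
    have hev := (tendsto_const_nhds (x := C)).div_atTop
      (tendsto_atTop_add_const_right atTop (1 : ℝ) hlog)
    filter_upwards [hev.eventually (gt_mem_nhds hε), eventually_ge_atTop 1] with x hx hx1
    obtain ⟨k, t, ht, ht2, hxe, hk⟩ := exists_decomp x hx1
    have h1 := h t ht ht2 k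
    rw [pow_one, hk] at h1
    have h2 : |G t| ≤ sSup ((fun t => |G t|) '' Set.Ico 1 2) := le_csSup hbdd ⟨t, ⟨ht, ht2⟩, rfl⟩
    have h3 := abs_sub_abs_le_abs_sub ((-1 : ℝ) ^ k * (S (2 ^ k * t) / (2 ^ k * t))) (G t)
    rw [hk] at h3
    rw [habs _ t ht] at h3
    rw [← hk] at h1 h3 hx
    rw [hxe]
    linarith
  · refine csSup_le hne ?_
    rintro _ ⟨t, ⟨ht, ht2⟩, rfl⟩
    refine le_of_forall_pos_le_add fun ε hε => ?_
    have hfr : ∃ᶠ x in atTop, |G t| - ε ≤ |S x| / x := by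
      rw [frequently_atTop]
      intro a
      have h1 : Tendsto (fun k : ℕ => (2 : ℝ) ^ k * t) atTop atTop :=
        (tendsto_pow_atTop_atTop_of_one_lt (by norm_num : (1 : ℝ) < 2)).atTop_mul_const (by linarith)
      have h2 : Tendsto (fun k : ℕ => C / ((k : ℝ) + 1) ^ 1) atTop (𝓝 0) := by
        simp only [pow_one]
        exact (tendsto_const_nhds (x := C)).div_atTop
          (tendsto_atTop_add_const_right atTop (1 : ℝ) tendsto_natCast_atTop_atTop)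
      obtain ⟨k, hk1, hk2⟩ := ((h1.eventually_ge_atTop a).and (h2.eventually (gt_mem_nhds hε))).exists
      refine ⟨2 ^ k * t, hk1, ?_⟩
      have h3 := h t ht ht2 k
      have h4 := abs_sub_abs_le_abs_sub (G t) ((-1 : ℝ) ^ k * (S (2 ^ k * t) / (2 ^ k * t)))
      rw [abs_sub_comm, habs k t ht] at h4
      linarith
    have := le_limsup_of_frequently_le hfr hbu
    linarith

end Pool.Agent.H295R3.W
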