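import Pool.Agent.H295R3.W.AsmA
import Pool.Agent.H630R3.W.G
import Pool.Agent.H766R3.W.TaskM

set_option autoImplicit false

open Finset ArithmeticFunction Filter Topology

namespace Pool.Agent.H295R3.W

theorem hT : ∀ V : ℕ, ∃ C : ℝ, 0 < C ∧ ∀ u : ℝ, 1 ≤ u →
    |T u| ≤ C * u / (Real.log (u + 1)) ^ V :=
  Pool.Agent.H744R3.W.taskT Pool.Agent.H295R3.W.taskM Pool.Agent.H630R3.W.taskG

theorem hS : TaskS := Pool.Agent.H295R3.W.taskS

theorem ereal_limsup : limsup (fun x : ℝ => ((|S x| / x : ℝ) : EReal)) atTop =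
    ((sSup ((fun t => |G t|) '' Set.Ico 1 2) : ℝ) : EReal) := by
  obtain ⟨B', hB'⟩ := S_bdd hT hS
  have hbu : IsBoundedUnder (· ≤ ·) atTop (fun x : ℝ => |S x| / x) := by
    refine ⟨B', ?_⟩
    rw [eventually_map]
    filter_upwards [eventually_ge_atTop 1] with x hx
    rw [div_le_iff₀ (by linarith)]
    exact hB' x hx
  have hcb : IsCoboundedUnder (· ≤ ·) atTop (fun x : ℝ => |S x| / x) := by
    refine IsBoundedUnder.isCoboundedUnder_le ⟨0, ?_⟩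
    rw [eventually_map]
    filter_upwards [eventually_ge_atTop 1] with x hx
    positivity
  have h := Monotone.map_limsup_of_continuousAt (F := atTop) (f := ((↑) : ℝ → EReal))
    EReal.coe_strictMono.monotone (fun x : ℝ => |S x| / x) continuous_coe_real_ereal.continuousAt hbu hcb
  rw [limsup_eq hT hS] at h
  rw [h]
  rfl

theorem dyadic (V : ℕ) : ∃ C : ℝ, 0 < C ∧ ∀ k : ℕ,
    |sSup ((fun x => |S x| / x) '' Set.Ico ((2 : ℝ) ^ k) (2 ^ (k + 1))) -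
      sSup ((fun t => |G t|) '' Set.Ico 1 2)| ≤ C / ((k : ℝ) + 1) ^ V := by
  obtain ⟨C, hC, h⟩ := approx hT hS V
  obtain ⟨B, hB⟩ := G_bdd hT
  obtain ⟨B', hB'⟩ := S_bdd hT hS
  refine ⟨C, hC, fun k => ?_⟩
  have hp : (0 : ℝ) < 2 ^ k := by positivity
  have h1k : (1 : ℝ) ≤ 2 ^ k := one_le_pow₀ (by norm_num)
  have habs : ∀ (t : ℝ), 1 ≤ t → |(-1 : ℝ) ^ k * (S (2 ^ k * t) / (2 ^ k * t))| =
      |S (2 ^ k * t)| / (2 ^ k * t) := by
    intro t ht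
    have hp : (0 : ℝ) < 2 ^ k * t := by positivity
    rw [abs_mul, abs_pow, abs_neg, abs_one, one_pow, one_mul, abs_div, abs_of_pos hp]
  have hbdd : BddAbove ((fun t => |G t|) '' Set.Ico 1 2) :=
    ⟨B, by rintro _ ⟨t, ht, rfl⟩; exact hB t ht.1⟩
  have hne : ((fun t => |G t|) '' Set.Ico (1 : ℝ) 2).Nonempty := ⟨_, 1, by simp, rfl⟩
  have hbdd2 : BddAbove ((fun x => |S x| / x) '' Set.Ico ((2 : ℝ) ^ k) (2 ^ (k + 1))) := by
    refine ⟨B', ?_⟩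
    rintro _ ⟨x, hx, rfl⟩
    have hx1 : 1 ≤ x := h1k.trans hx.1
    show |S x| / x ≤ B'
    rw [div_le_iff₀ (by linarith)]
    exact hB' x hx1
  have hne2 : ((fun x => |S x| / x) '' Set.Ico ((2 : ℝ) ^ k) (2 ^ (k + 1))).Nonempty :=
    ⟨_, 2 ^ k, ⟨le_refl _, by rw [pow_succ]; linarith⟩, rfl⟩
  rw [abs_sub_le_iff]
  constructor
  · rw [sub_le_iff_le_add]
    refine csSup_le hne2 ?_
    rintro _ ⟨x, hx, rfl⟩
    have ht : 1 ≤ x / 2 ^ k := by rw [le_div_iff₀ hp]; linarith [hx.1]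
    have ht2 : x / 2 ^ k < 2 := by rw [div_lt_iff₀ hp]; have := hx.2; rw [pow_succ] at this; linarith
    have e : (2 : ℝ) ^ k * (x / 2 ^ k) = x := by field_simp
    have h1 := h _ ht ht2 k
    have h3 := abs_sub_abs_le_abs_sub ((-1 : ℝ) ^ k * (S (2 ^ k * (x / 2 ^ k)) / (2 ^ k * (x / 2 ^ k)))) (G (x / 2 ^ k))
    rw [habs _ ht, e] at h3
    rw [e] at h1
    have h2 : |G (x / 2 ^ k)| ≤ sSup ((fun t => |G t|) '' Set.Ico 1 2) := le_csSup hbdd ⟨_, ⟨ht, ht2⟩, rfl⟩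
    show |S x| / x ≤ _
    linarith
  · rw [sub_le_iff_le_add]
    refine csSup_le hne ?_
    rintro _ ⟨t, ⟨ht, ht2⟩, rfl⟩
    have h1 := h _ ht ht2 k
    have h3 := abs_sub_abs_le_abs_sub (G t) ((-1 : ℝ) ^ k * (S (2 ^ k * t) / (2 ^ k * t)))
    rw [abs_sub_comm, habs _ ht] at h3
    have h2 : |S (2 ^ k * t)| / (2 ^ k * t) ≤ sSup ((fun x => |S x| / x) '' Set.Ico ((2 : ℝ) ^ k) (2 ^ (k + 1))) := by
      refine le_csSup hbdd2 ⟨2 ^ k * t, ⟨?_, ?_⟩, rfl⟩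
      · nlinarith
      · rw [pow_succ]; exact mul_lt_mul_of_pos_left ht2 hp
    show |G t| ≤ _
    linarith

end Pool.Agent.H295R3.W
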