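import Pool.Agent.H295R3.W.Stmts

/-! Part B statements: `limsup |S(x)|/x ≥ 11/20` (project H295-W2). -/

set_option autoImplicit false

open Finset ArithmeticFunction Filter Topology Complex

namespace Pool.Agent.H295R3.W

/-- the poles `1 + (2k+1) π i / log 2` -/
noncomputable def sk (k : ℕ) : ℂ := 1 + (om k : ℂ) * I

/-- Dirichlet series of `g` (absolutely convergent for `Re s ≥ 3/4`) -/
noncomputable def Dirg (s : ℂ) : ℂ := ∑' n : ℕ, (g n : ℂ) * ((n : ℂ) ^ (-s))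

/-- the Fourier coefficients of the limit of `S(e^u)/e^u` -/
noncomputable def ck (k : ℕ) : ℂ := Dirg (sk k) / ((riemannZeta (sk k)) ^ 2 * sk k * (Real.log 2 : ℝ))

/-- Fourier coefficient of index `2 (i - j) + 1` -/
noncomputable def Fh (c : ℕ → ℂ) (i j : ℕ) : ℂ :=
  if j ≤ i then c (i - j) else (starRingEnd ℂ) (c (j - i - 1))

/-- Laplace transform and Cauchy-Schwarz -/
def TaskLap : Prop := ∀ (A x₀ : ℝ), 0 ≤ A → (∀ x : ℝ, x₀ ≤ x → |S x| ≤ A * x) → ∀ (K : ℕ) (c : ℕ → ℂ),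
  (∀ k < K, Tendsto (fun σ : ℝ => ((σ : ℂ) - 1) * Dir (σ + om k * I) / (σ + om k * I)) (𝓝[>] 1)
    (𝓝 (c k))) → ∀ v w : ℕ → ℂ,
  ‖∑ i ∈ range K, ∑ j ∈ range K, v i * w j * Fh c i j‖ ≤
    A * √(∑ i ∈ range K, ‖v i‖ ^ 2) * √(∑ j ∈ range K, ‖w j‖ ^ 2)

/-- residues of the Dirichlet series -/
def TaskRes : Prop := TaskG → ∀ k : ℕ,
  Tendsto (fun σ : ℝ => ((σ : ℂ) - 1) * Dir (σ + om k * I) / (σ + om k * I)) (𝓝[>] 1) (𝓝 (ck k))

/-- Euler-Maclaurin -/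
def TaskEM : Prop := ∀ (N : ℕ) (t : ℝ), 1 ≤ N → t ≠ 0 → ∀ s : ℂ, s = 1 + (t : ℂ) * I →
  ‖riemannZeta s - (∑ n ∈ Ico 1 N, (n : ℂ) ^ (-s) + (N : ℂ) ^ (1 - s) / (s - 1) + (N : ℂ) ^ (-s) / 2 +
    s / 12 * (N : ℂ) ^ (-s - 1))‖ ≤ ‖s‖ * ‖s + 1‖ * ‖s + 2‖ / (120 * (N : ℝ) ^ 3)

/-- `p^{-i π / log 2}` for the primes `3 ≤ p < 100` -/
def wtab : List (ℕ × ℚ × ℚ) :=
  [(3, 263759/1000000, 964588/1000000),
   (5, 530703/1000000, -847558/1000000),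
   (7, -822381/1000000, -568937/1000000),
   (11, -127105/1000000, 991889/1000000),
   (13, 588902/1000000, 808204/1000000),
   (17, 962487/1000000, -271328/1000000),
   (19, 711696/1000000, -702488/1000000),
   (23, -73954/1000000, -997262/1000000),
   (29, -902108/1000000, -431510/1000000),
   (31, -989665/1000000, -143400/1000000),
   (37, -791206/1000000, 611549/1000000),
   (41, -432725/1000000, 901526/1000000),
   (43, -229580/1000000, 973290/1000000),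
   (47, 170657/1000000, 985331/1000000),
   (53, 656397/1000000, 754415/1000000),
   (59, 932801/1000000, 360392/1000000),
   (61, 976419/1000000, 215882/1000000),
   (67, 978523/1000000, -206137/1000000),
   (71, 891367/1000000, -453282/1000000),
   (73, 827390/1000000, -561627/1000000),
   (79, 578135/1000000, -815941/1000000),
   (83, 382569/1000000, -923927/1000000),
   (89, 76162/1000000, -997095/1000000),
   (97, -308757/1000000, -951141/1000000)]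

/-- numerics of `p^{-i π / log 2}` -/
def TaskW : Prop := ∀ x ∈ wtab,
  ‖Complex.exp (-((Real.pi * Real.log x.1 / Real.log 2 : ℝ) : ℂ) * I) - ((x.2.1 : ℂ) + (x.2.2 : ℂ) * I)‖ ≤ 1 / 50000

/-- approximations of `ζ(s_k)` -/
noncomputable def Zt : ℕ → ℂ
  | 0 => ⟨7188 / 10000, 1247 / 10000⟩
  | 1 => ⟨4019 / 10000, -2211 / 10000⟩
  | 2 => ⟨10559 / 10000, 2209 / 10000⟩
  | 3 => ⟨7259 / 10000, 78 / 10000⟩
  | _ => 0

/-- approximations of `Dirg (s_k)` -/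
noncomputable def Gt : ℕ → ℂ
  | 0 => ⟨3356 / 10000, 471 / 10000⟩
  | 1 => ⟨4104 / 10000, 1436 / 10000⟩
  | 2 => ⟨5374 / 10000, 917 / 10000⟩
  | 3 => ⟨5579 / 10000, -2358 / 10000⟩
  | _ => 0

/-- numerics of `ζ(s_k)`, `k < 4` -/
def TaskZ : Prop := TaskEM → TaskW → ∀ k < 4, ‖riemannZeta (sk k) - Zt k‖ ≤ 1 / 250

/-- Euler product of `Dirg` with tail -/
def TaskEP : Prop := TaskG → ∀ s : ℂ, s.re = 1 → ∃ R : ℂ, ‖R - 1‖ ≤ 1 / 100 ∧
  Dirg s = (1 - (2 : ℂ) ^ (-s))⁻¹ ^ 2 *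
    (∏ p ∈ (Ico 3 100).filter Nat.Prime, (1 - 3 * ((p : ℂ) ^ (-s)) ^ 2 + 2 * ((p : ℂ) ^ (-s)) ^ 3)⁻¹) * R

/-- numerics of `Dirg (s_k)`, `k < 4` -/
def TaskH : Prop := TaskG → TaskEP → TaskW → ∀ k < 4, ‖Dirg (sk k) - Gt k‖ ≤ 1 / 100

/-- final numerics -/
def TaskFin : Prop := (∀ k < 4, ‖riemannZeta (sk k) - Zt k‖ ≤ 1 / 250) →
  (∀ k < 4, ‖Dirg (sk k) - Gt k‖ ≤ 1 / 100) → ∃ v w : ℕ → ℂ,
  (11 / 20 : ℝ) * √(∑ i ∈ range 4, ‖v i‖ ^ 2) * √(∑ j ∈ range 4, ‖w j‖ ^ 2) <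
    ‖∑ i ∈ range 4, ∑ j ∈ range 4, v i * w j * Fh ck i j‖

end Pool.Agent.H295R3.W
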