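import Pool.Agent.H295R3.W.StmtsB
import Pool.Agent.H630R3.W.G
import Pool.Agent.H114R3.W.TaskW
import Pool.Agent.H142R3.W.TaskRes
import Pool.Agent.H265R3.W.TaskFin
import Pool.Agent.H358R3.W.TaskEM
import Pool.Agent.H553R3.W.TaskLap
import Pool.Agent.H559R3.W.TaskEP
import Pool.Agent.H750R3.W.TaskZ
import Pool.Agent.H920R3.W.TaskH

set_option autoImplicit false

open Finset ArithmeticFunction Filter Topology

namespace Pool.Agent.H295R3.W

theorem lower (x₀ : ℝ) (h : ∀ x : ℝ, x₀ ≤ x → |S x| ≤ (11 / 20) * x) : False := by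
  have hG : TaskG := Pool.Agent.H630R3.W.taskG
  have hZ := Pool.Agent.H750R3.W.taskZ Pool.Agent.H358R3.W.taskEM taskW
  have hH := Pool.Agent.H920R3.W.taskH hG Pool.Agent.H559R3.W.taskEP taskW
  obtain ⟨v, w, hvw⟩ := Pool.Agent.H265R3.W.taskFin hZ hH
  have h1 := Pool.Agent.H553R3.W.taskLap (11 / 20) x₀ (by norm_num) h 4 ck
    (fun k _ => Pool.Agent.H142R3.W.taskRes hG k) v w
  linarith

end Pool.Agent.H295R3.W
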